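import Pool.Agent.Q297.RjC

/-!
A strictly increasing continuous time change for which the graph of Brownian motion almost surely
supports no Rajchman measure.
-/

open MeasureTheory ProbabilityTheory Set Filter Topology
open scoped ENNReal NNReal

namespace Pool.Agent.Results.MP_4f24d6_pr.NoRajchman

/-- the Fourier transform of a measure on the plane -/
noncomputable def fourier (μ : Measure (ℝ × ℝ)) (ξ : ℝ × ℝ) : ℂ :=
  ∫ x, Complex.exp (-2 * Real.pi * Complex.I * ((ξ.1 * x.1 + ξ.2 * x.2 : ℝ) : ℂ)) ∂μ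

/-- Rajchman measures: nonzero finite measures whose Fourier transform tends to zero at infinity -/
def IsRajchman (μ : Measure (ℝ × ℝ)) : Prop :=
  μ ≠ 0 ∧ IsFiniteMeasure μ ∧ Tendsto (fourier μ) (cocompact (ℝ × ℝ)) (𝓝 0)

/-- the graph over `[0, 1]` -/
def graph (X : ℝ → ℝ) : Set (ℝ × ℝ) := (fun t => (t, X t)) '' Icc (0 : ℝ) 1

/-- the set `E` supports a Rajchman measure -/
def SupportsRajchman (E : Set (ℝ × ℝ)) : Prop := ∃ μ : Measure (ℝ × ℝ), IsRajchman μ ∧ μ.support ⊆ E

/-- **Main theorem.**  There is a continuous strictly increasing function `V ≥ 0` on `[0, 1]` such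
that for every standard Brownian motion `B`, almost surely the graph of `t ↦ B (V t)` over `[0, 1]`
supports no Rajchman measure. -/
theorem result : ∃ V : ℝ → ℝ≥0, ContinuousOn V (Icc 0 1) ∧ StrictMonoOn V (Icc 0 1) ∧
    ∀ (Ω : Type*) (_ : MeasurableSpace Ω) (P : Measure Ω) (B : ℝ≥0 → Ω → ℝ),
      (∀ t, Measurable (B t)) → IsBrownianReal B P →
        ∀ᵐ ω ∂P, ¬ SupportsRajchman (graph fun t => B (V t) ω) := by
  obtain ⟨V, hV1, hV2, hV3⟩ := Q297.Rj.main
  refine ⟨V, hV1.continuousOn, hV2, fun Ω mΩ P B hBm hB => ?_⟩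
  filter_upwards [hV3 Ω mΩ P B hBm hB] with ω hω ⟨μ, ⟨h0, hf, hF⟩, hs⟩
  refine h0 (hω μ hf hs ?_)
  refine hF.congr fun ξ => ?_
  unfold fourier Q297.Rj.FT Q297.Rj.ex
  refine integral_congr_ae (ae_of_all _ fun x => ?_)
  show Complex.exp _ = Complex.exp _
  congr 1
  push_cast
  ring

end Pool.Agent.Results.MP_4f24d6_pr.NoRajchman
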